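import Pool.Agent.H29.CM4.SHP

/-!
# The expansion of the sum over the lattices in additive characters, over `k` (row IDX)
-/

set_option autoImplicit false
set_option linter.unusedSectionVars false
set_option linter.unusedVariables false

open MeasureTheory Set Filter NumberField NumberField.InfinitePlace Pool.Agent.H65.CM4
open scoped Real

namespace Pool.Agent.H29.CM4

section Aux

variable {k : Type} [Field k] [NumberField k] [IsTotallyReal k]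

/-- the good ideals -/
def Gi (b : ℕ) (f : Ideal (𝓞 k)) : Prop :=
  f ≠ ⊥ ∧ Squarefree f ∧ f ⊔ Ideal.span {(b : 𝓞 k)} = ⊤

/-- the pairs of a lattice and a fraction -/
noncomputable def Sf (R : Ch k) (f : Ideal (𝓞 k)) : Finset (La k × k) := Ls f ×ˢ Rp R f

/-- numbering of the pairs -/
theorem exists_e (hCLF : T_CLF k) (R : Ch k) {b : ℕ} (hb : Adm R b) :
    ∃ e : Ideal (𝓞 k) → La k × k → ℕ, ∀ f, Gi b f →
      Set.InjOn (e f) (Sf R f) ∧ ∀ p ∈ Sf R f, e f p < Ideal.absNorm f ^ 2 := by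
  classical
  refine ⟨fun f p => if h : p ∈ Sf R f then ((Sf R f).equivFin ⟨p, h⟩).val else 0, fun f hf =>
    ⟨?_, ?_⟩⟩
  · intro p hp p' hp' h
    have hp1 : p ∈ Sf R f := hp
    have hp1' : p' ∈ Sf R f := hp'
    simp only [dif_pos hp1, dif_pos hp1'] at h
    have h1 := (Sf R f).equivFin.injective (Fin.ext h)
    exact congrArg Subtype.val h1
  · intro p hp
    simp only [dif_pos hp]
    refine lt_of_lt_of_le ((Sf R f).equivFin ⟨p, hp⟩).2 ?_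
    unfold Sf
    rw [Finset.card_product]
    exact (hCLF R b f hb hf.1 hf.2.1 hf.2.2).1

/-- the frequencies of the first kind -/
theorem exists_mu {R : Ch k} {b : ℕ} {e : Ideal (𝓞 k) → La k × k → ℕ}
    (he : ∀ f, Gi b f → Set.InjOn (e f) (Sf R f) ∧ ∀ p ∈ Sf R f, e f p < Ideal.absNorm f ^ 2)
    (u : Ideal (𝓞 k) → La k → V2 k) : ∃ μ : Ideal (𝓞 k) × ℕ → RF k, ∀ f, Gi b f →
      ∀ p ∈ Sf R f, μ (f, e f p) = sq2 p.2 (u f p.1) := by
  classical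
  refine ⟨fun g => sq2 (Function.invFunOn (e g.1) (Sf R g.1) g.2).2
    (u g.1 (Function.invFunOn (e g.1) (Sf R g.1) g.2).1), fun f hf p hp => ?_⟩
  have h1 : Function.invFunOn (e f) (Sf R f) (e f p) = p :=
    (he f hf).1.leftInvOn_invFunOn hp
  show sq2 (Function.invFunOn (e f) (Sf R f) (e f p)).2
    (u f (Function.invFunOn (e f) (Sf R f) (e f p)).1) = _
  rw [h1]

theorem ee_add' (Q : QF k) (ξ ζ : RF k) : ee Q (ξ + ζ) = ee Q ξ * ee Q ζ := by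
  unfold ee
  rw [← Complex.exp_add, ← add_mul, ← mul_add, ← Complex.ofReal_add, ← Finset.sum_add_distrib]
  congr 4
  refine Finset.sum_congr rfl fun v _ => ?_
  simp only [Pi.add_apply, Prod.fst_add, Prod.snd_add]
  ring

/-- what the shape of a lattice gives -/
theorem shape_facts (hEMB : T_EMB k) (hFLS : T_FLS k) (hRFM : T_RFM k) {R : Ch k} {b : ℕ}
    (hb : Adm R b) {C₁ r : ℝ} {I f m : Ideal (𝓞 k)} {L L' : La k} {w : V2 k} (hI : Gi b I)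
    (h : Sh R C₁ r I L f m L' w) :
    Gi b f ∧ Gi b m ∧ Cop m w ∧ Lw m w ∈ Ls m ∧
      ∀ Q, Rn I L Q = Rn f L' Q * Rn m (Lw m w) Q := by
  have hfm : I = f * m := h.mul
  have hf0 : f ≠ ⊥ := fun h1 => hI.1 (by rw [hfm, h1]; exact Ideal.bot_mul m)
  have hm0 : m ≠ ⊥ := fun h1 => hI.1 (by rw [hfm, h1]; exact Ideal.mul_bot f)
  have hIf : I ≤ f := Ideal.dvd_iff_le.1 (Dvd.intro m hfm.symm)
  have hIm : I ≤ m := Ideal.dvd_iff_le.1 (Dvd.intro_left f hfm.symm)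
  have hgf : Gi b f := ⟨hf0, hI.2.1.squarefree_of_dvd (Dvd.intro m hfm.symm),
    sup_top_mono hI.2.2 hIf le_rfl⟩
  have hgm : Gi b m := ⟨hm0, hI.2.1.squarefree_of_dvd (Dvd.intro_left f hfm.symm),
    sup_top_mono hI.2.2 hIm le_rfl⟩
  have hcop : Cop m w := cop_of_adm hb h.wm hgm.2.2
  have hLw : Lw m w ∈ Ls m := (hFLS m (Lw m w) hm0).1.2 ⟨w, hcop, rfl⟩
  refine ⟨hgf, hgm, hcop, hLw, fun Q => ?_⟩
  have h2 : f ⊔ m = ⊤ := top_of_sq hI.2.1 hfm le_sup_left le_sup_right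
  have h1 := (hRFM f m L' (Lw m w) Q hf0 hm0 h2 h.mem hLw).2
  rw [h.inf, hfm, h1]

/-- the expansion for one lattice -/
theorem expand_one (hEMB : T_EMB k) (hFLS : T_FLS k) (hRFM : T_RFM k) (hRAM : T_RAM k)
    {R : Ch k} {b : ℕ} (hb : Adm R b) {C₁ r : ℝ} {I f m : Ideal (𝓞 k)} {L L' : La k}
    {w u : V2 k} (hI : Gi b I) (h : Sh R C₁ r I L f m L' w) (hu : Cop f u)
    (hu' : L' = Lw f u) (Q : QF k) :
    ∑ p ∈ Rp R f ×ˢ Rp R m, ee Q (sq2 p.1 u + sq2 p.2 w) = (Rn I L Q : ℂ) := by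
  obtain ⟨hf, hm, hcop, hLw, hR⟩ := shape_facts hEMB hFLS hRFM hb hI h
  rw [hR, Complex.ofReal_mul, hu', (hRAM R b f u Q hb hf.1 hf.2.1 hf.2.2 hu).2,
    (hRAM R b m w Q hb hm.1 hm.2.1 hm.2.2 hcop).2, Finset.sum_mul_sum, Finset.sum_product]
  refine Finset.sum_congr rfl fun i _ => Finset.sum_congr rfl fun j _ => ?_
  exact ee_add' Q _ _

/-- the bound of the coefficients -/
theorem coef_le (hEMB : T_EMB k) {R : Ch k} {b : ℕ} {C₁ r M : ℝ} (hC₁ : 1 ≤ C₁) (hr : 0 < r)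
    (hM : 0 ≤ M) {I f m : Ideal (𝓞 k)} {L L' : La k} {w : V2 k} (h : Sh R C₁ r I L f m L' w)
    (hf : f ≠ ⊥) (hm : m ≠ ⊥) {z : ℂ} (hz : ‖z‖ ^ 2 * nm I ^ 2 * mn r L ≤ M) :
    ‖z‖ ^ 2 * nm f ^ 4 * nm m ^ 2 * nn r w ≤ C₁ * M ∧
      ‖z‖ ≤ Real.sqrt (C₁ * M / nn r w) * (1 / (nm f ^ 2 * nm m)) := by
  obtain ⟨-, -, -, -, -, -, -, -, -, -, hnm, -⟩ := hEMB
  have hw := nn_pos' hr (R.ne w h.wm)
  have hnI : nm I = nm f * nm m := by
    rw [h.mul]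
    unfold nm
    rw [map_mul, Nat.cast_mul]
  have h1 : ‖z‖ ^ 2 * nm f ^ 4 * nm m ^ 2 * nn r w ≤ C₁ * M := by
    calc ‖z‖ ^ 2 * nm f ^ 4 * nm m ^ 2 * nn r w
        = ‖z‖ ^ 2 * nm I ^ 2 * (nm f ^ 2 * nn r w) := by rw [hnI]; ring
      _ ≤ ‖z‖ ^ 2 * nm I ^ 2 * (C₁ * mn r L) :=
          mul_le_mul_of_nonneg_left h.mnb (by positivity)
      _ = C₁ * (‖z‖ ^ 2 * nm I ^ 2 * mn r L) := by ring
      _ ≤ C₁ * M := mul_le_mul_of_nonneg_left hz (by linarith)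
  refine ⟨h1, ?_⟩
  have hf0 : (0 : ℝ) < nm f := lt_of_lt_of_le one_pos (hnm f hf).1
  have hm0 : (0 : ℝ) < nm m := lt_of_lt_of_le one_pos (hnm m hm).1
  rw [mul_one_div, le_div_iff₀ (by positivity)]
  apply Real.le_sqrt_of_sq_le
  rw [le_div_iff₀ hw]
  refine le_trans (le_of_eq ?_) h1
  ring

/-- the majorant as a sum over triples -/
theorem Tw_eq (b : ℕ) (A : ℝ) (w : V2 k) (Q : QF k) (S : ℝ) :
    ∑ y ∈ ((Sq b A) ×ˢ (Sq b A)).sigma (fun p => Ls p.1),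
      S * ((1 / (nm y.1.1 ^ 2 * nm y.1.2)) * |Rn y.1.1 y.2 Q| * |Rn y.1.2 (Lw y.1.2 w) Q|) =
      S * Tw b A w Q := by
  rw [Finset.sum_sigma, Finset.sum_product]
  unfold Tw
  rw [Finset.mul_sum]
  refine Finset.sum_congr rfl fun f _ => ?_
  rw [Finset.mul_sum]
  refine Finset.sum_congr rfl fun m _ => ?_
  show ∑ L ∈ Ls f, S * ((1 / (nm f ^ 2 * nm m)) * |Rn f L Q| * |Rn m (Lw m w) Q|) = _
  rw [← Finset.mul_sum, ← Finset.sum_mul, ← Finset.mul_sum]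

end Aux

variable (k : Type) [Field k] [NumberField k] [IsTotallyReal k]

theorem pf_IDX (hEMB : T_EMB k) (hFLS : T_FLS k) (hCRT : T_CRT k) (hRFM : T_RFM k)
    (hRAM : T_RAM k) (hSHP : T_SHP k) (hCLF : T_CLF k) (hIDC : T_IDC k) : T_IDX k := by
  classical
  intro R
  obtain ⟨C₁, hC₁, hSH⟩ := hSHP R
  refine ⟨C₁, hC₁, ?_⟩
  intro b r A M c hb hr hA hM hc
  obtain ⟨e, he⟩ := exists_e hCLF R hb
  have hnm : ∀ I : Ideal (𝓞 k), I ≠ ⊥ → 1 ≤ nm I := fun I hI => (hEMB.2.2.2.2.2.2.2.2.2.2.1 I hI).1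
  have hRp : ∀ f : Ideal (𝓞 k), Gi b f → ∀ a : k, a ∈ Rp R f → a ∈ R.U ∧ den a = f := by
    intro f hf a ha
    have h0 : Cop f ((1, 0) : V2 k) := by
      have h1 : Ideal.span {(1 : 𝓞 k), 0} = ⊤ :=
        Ideal.eq_top_of_isUnit_mem _ (Ideal.subset_span (by simp)) isUnit_one
      show Ideal.span {(1 : 𝓞 k), 0} ⊔ f = ⊤
      rw [h1]; exact top_sup_eq f
    exact ((hRAM R b f (1, 0) 0 hb hf.1 hf.2.1 hf.2.2 h0).1 a).1 ha
  have hu : ∀ (f : Ideal (𝓞 k)) (L' : La k), ∃ u : V2 k, f ≠ ⊥ → L' ∈ Ls f →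
      Cop f u ∧ L' = Lw f u := by
    intro f L'
    by_cases h : f ≠ ⊥ ∧ L' ∈ Ls f
    · obtain ⟨u, hu⟩ := (hFLS f L' h.1).1.1 h.2
      exact ⟨u, fun _ _ => hu⟩
    · exact ⟨0, fun h1 h2 => absurd ⟨h1, h2⟩ h⟩
  choose u hu using hu
  obtain ⟨μ, hμ⟩ := exists_mu he u
  set J : Finset ((_ : Ideal (𝓞 k)) × La k) := (Sq b A).sigma (fun I => Ls I) with hJ
  have hJm : ∀ z ∈ J, Gi b z.1 ∧ nm z.1 ≤ A ∧ z.1 ∈ Sq b A ∧ z.2 ∈ Ls z.1 := by
    intro z hz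
    rw [hJ, Finset.mem_sigma] at hz
    obtain ⟨h1, h2, h3, h4⟩ := (hIDC.2.1 b A z.1).1 hz.1
    exact ⟨⟨h1, h2, h3⟩, h4, hz.1, hz.2⟩
  have hs : ∀ z : (_ : Ideal (𝓞 k)) × La k, ∃ (f m : Ideal (𝓞 k)) (L' : La k)
      (w : V2 k), z ∈ J → Sh R C₁ r z.1 z.2 f m L' w := by
    intro z
    by_cases hz : z ∈ J
    · obtain ⟨h1, -, -, h4⟩ := hJm z hz
      obtain ⟨f, m, L', w, h⟩ := hSH b r z.1 z.2 hb hr h1.1 h1.2.1 h1.2.2 h4
      exact ⟨f, m, L', w, fun _ => h⟩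
    · exact ⟨⊥, ⊥, ⊥, 0, fun h => absurd h hz⟩
  choose fF mF LF wF hSh using hs
  have hfact : ∀ z ∈ J, Gi b (fF z) ∧ Gi b (mF z) ∧ Cop (mF z) (wF z) ∧
      Lw (mF z) (wF z) ∈ Ls (mF z) ∧
      ∀ Q, Rn z.1 z.2 Q = Rn (fF z) (LF z) Q * Rn (mF z) (Lw (mF z) (wF z)) Q :=
    fun z hz => shape_facts hEMB hFLS hRFM hb (hJm z hz).1 (hSh z hz)
  set T : Finset ((_ : (_ : Ideal (𝓞 k)) × La k) × (k × k)) :=
    J.sigma (fun z => Rp R (fF z) ×ˢ Rp R (mF z)) with hT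
  set X : ((_ : (_ : Ideal (𝓞 k)) × La k) × (k × k)) → Ix k := fun t =>
    (wF t.1, (fF t.1, e (fF t.1) (LF t.1, t.2.1)), t.2.2) with hX
  have hTm : ∀ t ∈ T, t.1 ∈ J ∧ t.2.1 ∈ Rp R (fF t.1) ∧ t.2.2 ∈ Rp R (mF t.1) := by
    intro t ht
    rw [hT, Finset.mem_sigma, Finset.mem_product] at ht
    exact ht
  have hSf : ∀ t ∈ T, ((LF t.1, t.2.1) : La k × k) ∈ Sf R (fF t.1) := by
    intro t ht
    unfold Sf
    rw [Finset.mem_product]
    exact ⟨(hSh t.1 (hTm t ht).1).mem, (hTm t ht).2.1⟩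
  have hzeq : ∀ z ∈ J, ∀ z' ∈ J, fF z = fF z' → mF z = mF z' → LF z = LF z' → wF z = wF z' →
      z = z' := by
    intro z hz z' hz' h1 h2 h3 h4
    have e1 : z.1 = z'.1 := by rw [(hSh z hz).mul, (hSh z' hz').mul, h1, h2]
    have e2 : z.2 = z'.2 := by rw [(hSh z hz).inf, (hSh z' hz').inf, h2, h3, h4]
    exact Sigma.ext e1 (heq_of_eq e2)
  have hden : ∀ t ∈ T, den t.2.2 = mF t.1 ∧ t.2.2 ∈ R.U := by
    intro t ht
    have h := hRp (mF t.1) (hfact t.1 (hTm t ht).1).2.1 _ (hTm t ht).2.2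
    exact ⟨h.2, h.1⟩
  have hinj : Set.InjOn X T := by
    intro t ht t' ht' h
    have ht1 : t ∈ T := ht
    have ht1' : t' ∈ T := ht'
    have hw : wF t.1 = wF t'.1 := congrArg (fun x : Ix k => x.1) h
    have hf : fF t.1 = fF t'.1 := congrArg (fun x : Ix k => x.2.1.1) h
    have hE : e (fF t.1) (LF t.1, t.2.1) = e (fF t'.1) (LF t'.1, t'.2.1) :=
      congrArg (fun x : Ix k => x.2.1.2) h
    have hj : t.2.2 = t'.2.2 := congrArg (fun x : Ix k => x.2.2) h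
    have hm : mF t.1 = mF t'.1 := by rw [← (hden t ht1).1, ← (hden t' ht1').1, hj]
    have h1 := hSf t ht1
    rw [hf] at hE h1
    have h2 := (he (fF t'.1) (hfact t'.1 (hTm t' ht1').1).1).1 h1 (hSf t' ht1') hE
    obtain ⟨h3, h4⟩ := Prod.mk.inj h2
    have h5 : t.1 = t'.1 := hzeq _ (hTm t ht1).1 _ (hTm t' ht1').1 hf hm h3 hw
    exact Sigma.ext h5 (heq_of_eq (Prod.ext h4 hj))
  set c' : Ix k → ℂ := fun x => if h : ∃ t ∈ T, X t = x then c h.choose.1.1 h.choose.1.2 else 0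
    with hc'
  have hcX : ∀ t ∈ T, c' (X t) = c t.1.1 t.1.2 := by
    intro t ht
    have h : ∃ t' ∈ T, X t' = X t := ⟨t, ht, rfl⟩
    have h1 : h.choose = t := hinj h.choose_spec.1 ht h.choose_spec.2
    rw [hc']
    simp only
    rw [dif_pos h, h1]
  have hlam : ∀ t ∈ T, lam μ (X t) = sq2 t.2.1 (u (fF t.1) (LF t.1)) +
      sq2 t.2.2 (wF t.1) := by
    intro t ht
    have h1 := hμ (fF t.1) (hfact t.1 (hTm t ht).1).1 _ (hSf t ht)
    show μ (fF t.1, e (fF t.1) (LF t.1, t.2.1)) + _ = _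
    rw [h1]
  have hsum : ∀ (P : V2 k → Prop) [DecidablePred P] (Q : QF k),
      ∑ x ∈ (T.image X).filter (fun x => P x.1), c' x * ee Q (lam μ x) =
        ∑ z ∈ J.filter (fun z => P (wF z)), c z.1 z.2 * (Rn z.1 z.2 Q : ℂ) := by
    intro P _ Q
    rw [Finset.sum_filter, Finset.sum_image hinj, hT, Finset.sum_sigma, Finset.sum_filter]
    refine Finset.sum_congr rfl fun z hz => ?_
    have h0 : ∀ p ∈ Rp R (fF z) ×ˢ Rp R (mF z),
        (⟨z, p⟩ : (_ : (_ : Ideal (𝓞 k)) × La k) × (k × k)) ∈ T := by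
      intro p hp
      rw [hT, Finset.mem_sigma]
      exact ⟨hz, hp⟩
    by_cases hP : P (wF z)
    · have hu1 := hu (fF z) (LF z) (hfact z hz).1.1 (hSh z hz).mem
      rw [if_pos hP, ← expand_one hEMB hFLS hRFM hRAM hb (hJm z hz).1 (hSh z hz)
        hu1.1 hu1.2 Q, Finset.mul_sum]
      refine Finset.sum_congr rfl fun p hp => ?_
      have h1 : P (X ⟨z, p⟩).1 := hP
      rw [if_pos h1, hcX _ (h0 p hp), hlam _ (h0 p hp)]
    · rw [if_neg hP]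
      refine Finset.sum_eq_zero fun p hp => ?_
      have h1 : ¬ P (X ⟨z, p⟩).1 := hP
      rw [if_neg h1]
  have hcoef : ∀ z ∈ J, ‖c z.1 z.2‖ ^ 2 * nm (fF z) ^ 4 * nm (mF z) ^ 2 * nn r (wF z) ≤ C₁ * M ∧
      ‖c z.1 z.2‖ ≤ Real.sqrt (C₁ * M / nn r (wF z)) * (1 / (nm (fF z) ^ 2 * nm (mF z))) :=
    fun z hz => coef_le hEMB (b := b) hC₁ hr hM (hSh z hz) (hfact z hz).1.1 (hfact z hz).2.1.1
      (hc z.1 (hJm z hz).2.2.1 z.2 (hJm z hz).2.2.2)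
  have hmulnm : ∀ z ∈ J, nm (fF z) * nm (mF z) = nm z.1 := by
    intro z hz
    rw [(hSh z hz).mul]
    unfold nm
    rw [map_mul, Nat.cast_mul]
  refine ⟨T.image X, c', μ, ?_, ?_, ?_, ?_⟩
  · intro x hx
    obtain ⟨t, ht, rfl⟩ := Finset.mem_image.1 hx
    obtain ⟨hz, hi, hj⟩ := hTm t ht
    have hs := hSh t.1 hz
    have hd := hden t ht
    refine ⟨hs.wm, (hfact t.1 hz).1.1, (he _ (hfact t.1 hz).1).2 _ (hSf t ht), hd.2, ?_, ?_⟩
    · show nm (fF t.1) * nn r (wF t.1) ≤ C₁ * nm (den t.2.2)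
      rw [hd.1]; exact hs.sh
    · show nm (fF t.1) * nm (den t.2.2) ≤ A
      rw [hd.1, hmulnm t.1 hz]
      exact (hJm t.1 hz).2.1
  · intro x hx
    obtain ⟨t, ht, rfl⟩ := Finset.mem_image.1 hx
    rw [hcX t ht]
    show ‖c t.1.1 t.1.2‖ ^ 2 * nm (fF t.1) ^ 4 * nm (den t.2.2) ^ 2 * nn r (wF t.1) ≤ C₁ * M
    rw [(hden t ht).1]
    exact (hcoef t.1 (hTm t ht).1).1
  · intro Q
    have h1 := hsum (fun _ => True) Q
    simp only [Finset.filter_true] at h1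
    rw [h1, hJ, Finset.sum_sigma]
  · intro w Q hwW
    rw [hsum (fun v => v = w) Q]
    refine (norm_sum_le _ _).trans ?_
    set S := Real.sqrt (C₁ * M / nn r w) with hS
    set G : ((_ : Ideal (𝓞 k) × Ideal (𝓞 k)) × La k) → ℝ := fun y =>
      S * ((1 / (nm y.1.1 ^ 2 * nm y.1.2)) * |Rn y.1.1 y.2 Q| * |Rn y.1.2 (Lw y.1.2 w) Q|)
      with hG
    have hnm0 : ∀ I : Ideal (𝓞 k), 0 ≤ nm I := fun I => Nat.cast_nonneg _
    have hG0 : ∀ y, 0 ≤ G y := by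
      intro y
      have h2 := hnm0 y.1.2
      rw [hG]
      positivity
    set Z : ((_ : Ideal (𝓞 k)) × La k) → ((_ : Ideal (𝓞 k) × Ideal (𝓞 k)) × La k) :=
      fun z => ⟨(fF z, mF z), LF z⟩ with hZ
    have hZinj : Set.InjOn Z (J.filter (fun z => wF z = w)) := by
      intro z hz z' hz' h
      have hz1 := Finset.mem_filter.1 hz
      have hz1' := Finset.mem_filter.1 hz'
      have h1 : (fF z, mF z) = (fF z', mF z') :=
        congrArg (fun y : (_ : Ideal (𝓞 k) × Ideal (𝓞 k)) × La k => y.1) h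
      have h2 : LF z = LF z' :=
        congrArg (fun y : (_ : Ideal (𝓞 k) × Ideal (𝓞 k)) × La k => y.2) h
      exact hzeq z hz1.1 z' hz1'.1 (Prod.mk.inj h1).1 (Prod.mk.inj h1).2 h2
        (hz1.2.trans hz1'.2.symm)
    have hle : ∀ z ∈ J.filter (fun z => wF z = w), ‖c z.1 z.2 * (Rn z.1 z.2 Q : ℂ)‖ ≤
        G (Z z) := by
      intro z hz
      obtain ⟨hz1, hz2⟩ := Finset.mem_filter.1 hz
      have h1 := (hcoef z hz1).2
      rw [hz2] at h1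
      rw [norm_mul, Complex.norm_real, Real.norm_eq_abs, (hfact z hz1).2.2.2.2 Q, abs_mul, hz2]
      show _ ≤ S * ((1 / (nm (fF z) ^ 2 * nm (mF z))) * |Rn (fF z) (LF z) Q| *
        |Rn (mF z) (Lw (mF z) w) Q|)
      calc ‖c z.1 z.2‖ * (|Rn (fF z) (LF z) Q| * |Rn (mF z) (Lw (mF z) w) Q|) ≤
          (S * (1 / (nm (fF z) ^ 2 * nm (mF z)))) *
            (|Rn (fF z) (LF z) Q| * |Rn (mF z) (Lw (mF z) w) Q|) :=
            mul_le_mul_of_nonneg_right h1 (by positivity)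
        _ = _ := by ring
    refine (Finset.sum_le_sum hle).trans ?_
    rw [← Finset.sum_image hZinj, ← Tw_eq]
    refine Finset.sum_le_sum_of_subset_of_nonneg ?_ fun y _ _ => hG0 y
    intro y hy
    obtain ⟨z, hz, rfl⟩ := Finset.mem_image.1 hy
    have hz1 := (Finset.mem_filter.1 hz).1
    obtain ⟨hf, hm, -, -, -⟩ := hfact z hz1
    have hmul := hmulnm z hz1
    have hn := (hJm z hz1).2.1
    have hf1 := hnm _ hf.1
    have hm1 := hnm _ hm.1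
    rw [Finset.mem_sigma, Finset.mem_product]
    refine ⟨⟨?_, ?_⟩, (hSh z hz1).mem⟩
    · show fF z ∈ Sq b A
      rw [hIDC.2.1]
      exact ⟨hf.1, hf.2.1, hf.2.2, by nlinarith⟩
    · show mF z ∈ Sq b A
      rw [hIDC.2.1]
      exact ⟨hm.1, hm.2.1, hm.2.2, by nlinarith⟩

end Pool.Agent.H29.CM4
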