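import Pool.Agent.H65.CM4.Targets1

/-!
# The shape of a lattice of squarefree index over `k` (row SHP)
-/

set_option autoImplicit false
set_option linter.unusedSectionVars false

open MeasureTheory Set Filter NumberField NumberField.InfinitePlace Pool.Agent.H65.CM4
open scoped Real

namespace Pool.Agent.H29.CM4

section Alg

variable {k : Type} [Field k] [NumberField k]

theorem det_smul' (u w : V2 k) (a : 𝓞 k) : det u (a • w) = a * det u w := by
  simp only [det, Prod.smul_fst, Prod.smul_snd, smul_eq_mul]; ring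

/-- an element whose multiples by a coprime vector are in the ideal is in the ideal -/
theorem mem_of_cop {J : Ideal (𝓞 k)} {u : V2 k} (hu : Cop J u) {d : 𝓞 k}
    (h1 : d * u.1 ∈ J) (h2 : d * u.2 ∈ J) : d ∈ J := by
  have h : (1 : 𝓞 k) ∈ Ideal.span {u.1, u.2} ⊔ J := by
    have h0 : Ideal.span {u.1, u.2} ⊔ J = ⊤ := hu
    rw [h0]; exact Submodule.mem_top
  obtain ⟨s, hs, t, ht, hst⟩ := Submodule.mem_sup.1 h
  obtain ⟨a, b, hab⟩ := Ideal.mem_span_pair.1 hs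
  have hd : d = a * (d * u.1) + b * (d * u.2) + d * t := by
    calc d = d * 1 := (mul_one d).symm
      _ = d * (s + t) := by rw [hst]
      _ = d * ((a * u.1 + b * u.2) + t) := by rw [hab]
      _ = _ := by ring
  rw [hd]
  exact J.add_mem (J.add_mem (J.mul_mem_left a h1) (J.mul_mem_left b h2)) (J.mul_mem_left d ht)

theorem Lw_eq' {m : Ideal (𝓞 k)} {u w : V2 k} (hu : Cop m u) (hw : Cop m w)
    (h : det u w ∈ m) : Lw m u = Lw m w := by
  apply SetLike.ext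
  intro v
  change det u v ∈ m ↔ det w v ∈ m
  constructor
  · intro hv
    apply mem_of_cop hu
    · have e : det w v * u.1 = w.1 * det u v - v.1 * det u w := by simp only [det]; ring
      rw [e]
      exact m.sub_mem (m.mul_mem_left _ hv) (m.mul_mem_left _ h)
    · have e : det w v * u.2 = w.2 * det u v - v.2 * det u w := by simp only [det]; ring
      rw [e]
      exact m.sub_mem (m.mul_mem_left _ hv) (m.mul_mem_left _ h)
  · intro hv
    apply mem_of_cop hw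
    · have e : det u v * w.1 = u.1 * det w v + v.1 * det u w := by simp only [det]; ring
      rw [e]
      exact m.add_mem (m.mul_mem_left _ hv) (m.mul_mem_left _ h)
    · have e : det u v * w.2 = u.2 * det w v + v.2 * det u w := by simp only [det]; ring
      rw [e]
      exact m.add_mem (m.mul_mem_left _ hv) (m.mul_mem_left _ h)

/-- coprimality passes to larger ideals -/
theorem cop_mono {I m : Ideal (𝓞 k)} {u : V2 k} (h : Cop I u) (hm : I ≤ m) : Cop m u := by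
  have h0 : Ideal.span {u.1, u.2} ⊔ I = ⊤ := h
  have h1 : Ideal.span {u.1, u.2} ⊔ I ≤ Ideal.span {u.1, u.2} ⊔ m := sup_le_sup_left hm _
  rw [h0] at h1
  exact top_le_iff.1 h1

theorem sup_top_mono {I J m n : Ideal (𝓞 k)} (h : I ⊔ J = ⊤) (h1 : I ≤ m) (h2 : J ≤ n) :
    m ⊔ n = ⊤ := by
  have h3 := sup_le_sup h1 h2
  rw [h] at h3
  exact top_le_iff.1 h3

/-- a squarefree ideal: coprime factors -/
theorem top_of_sq {I f m J : Ideal (𝓞 k)} (hI : Squarefree I) (hfm : I = f * m) (hf : f ≤ J)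
    (hm : m ≤ J) : J = ⊤ := by
  have h1 : J ∣ f := Ideal.dvd_iff_le.2 hf
  have h2 : J ∣ m := Ideal.dvd_iff_le.2 hm
  have h3 : J * J ∣ I := hfm ▸ mul_dvd_mul h1 h2
  exact Ideal.isUnit_iff.1 (hI J h3)

variable [IsTotallyReal k]

/-- the choices: the vectors of `W` are prime to the admissible ideals -/
theorem adm_facts {R : Ch k} {b : ℕ} (hb : Adm R b) {w : V2 k} (hw : w ∈ R.W) :
    ∃ c : ℕ, 0 < c ∧ c ≤ R.C0 ∧ (c : 𝓞 k) ∈ Ideal.span {w.1, w.2} ∧
      Ideal.span {(b : 𝓞 k)} ≤ Ideal.span {(c : 𝓞 k)} ∧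
      Ideal.span {(b : 𝓞 k)} ≤ Ideal.span {w.1, w.2} := by
  have hw0 := R.ne w hw
  have hspan : Ideal.span {w.1, w.2} ≠ ⊥ := by
    intro h
    apply hw0
    have h1 : w.1 ∈ Ideal.span {w.1, w.2} := Ideal.subset_span (by simp)
    have h2 : w.2 ∈ Ideal.span {w.1, w.2} := Ideal.subset_span (by simp)
    rw [h] at h1 h2
    exact Prod.ext (Ideal.mem_bot.1 h1) (Ideal.mem_bot.1 h2)
  have hc0 : 0 < Ideal.absNorm (Ideal.span {w.1, w.2}) := by
    rw [Nat.pos_iff_ne_zero]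
    exact fun h => hspan (Ideal.absNorm_eq_zero_iff.1 h)
  have hcb : Ideal.absNorm (Ideal.span {w.1, w.2}) ∣ b :=
    ((Nat.dvd_factorial hc0 (R.cont w hw)).trans (Dvd.intro_left _ rfl)).trans hb.2
  have hmem : ((Ideal.absNorm (Ideal.span {w.1, w.2}) : ℕ) : 𝓞 k) ∈ Ideal.span {w.1, w.2} :=
    Ideal.absNorm_mem _
  have hle : Ideal.span {(b : 𝓞 k)} ≤
      Ideal.span {((Ideal.absNorm (Ideal.span {w.1, w.2}) : ℕ) : 𝓞 k)} := by
    rw [Ideal.span_singleton_le_span_singleton]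
    exact Nat.cast_dvd_cast hcb
  refine ⟨_, hc0, R.cont w hw, hmem, hle, hle.trans ?_⟩
  rw [Ideal.span_singleton_le_iff_mem]
  exact hmem

theorem cop_of_adm {R : Ch k} {b : ℕ} (hb : Adm R b) {w : V2 k} (hw : w ∈ R.W)
    {I : Ideal (𝓞 k)} (hI : I ⊔ Ideal.span {(b : 𝓞 k)} = ⊤) : Cop I w := by
  obtain ⟨c, -, -, -, -, h⟩ := adm_facts hb hw
  have h1 := sup_top_mono hI le_rfl h
  rw [sup_comm] at h1
  exact h1

/-! ### Metrics -/

theorem nr_smul' (r : ℝ) (a : 𝓞 k) (u : V2 k) (v : Pl k) :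
    nr r v (a • u) = |rv v (a : k)| ^ 2 * nr r v u := by
  have h1 : (((a • u).1 : 𝓞 k) : k) = (a : k) * (u.1 : k) := rfl
  have h2 : (((a • u).2 : 𝓞 k) : k) = (a : k) * (u.2 : k) := rfl
  unfold nr
  rw [h1, h2, map_mul, map_mul, sq_abs]
  ring

theorem nn_smul' (r : ℝ) (a : 𝓞 k) (u : V2 k) : nn r (a • u) = Nr (a : k) ^ 2 * nn r u := by
  unfold nn Nr
  rw [← Finset.prod_pow, ← Finset.prod_mul_distrib]
  exact Finset.prod_congr rfl fun v _ => nr_smul' r a u v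

theorem nr_pos' {r : ℝ} (hr : 0 < r) {w : V2 k} (hw : w ≠ 0) (v : Pl k) : 0 < nr r v w := by
  have hinj : ∀ x : 𝓞 k, x ≠ 0 → rv v (x : k) ≠ 0 := by
    intro x hx h
    apply hx
    have h1 : (x : k) = 0 := by
      rw [← map_zero (rv v)] at h
      exact (rv v).injective h
    exact NumberField.RingOfIntegers.coe_injective (h1.trans (map_zero _).symm)
  unfold nr
  by_cases h : w.1 = 0
  · have h2 : w.2 ≠ 0 := fun h2 => hw (Prod.ext h h2)
    have h5 := hinj _ h2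
    have h3 : (0 : ℝ) ≤ rv v (w.1 : k) ^ 2 / r := by positivity
    have h4 : 0 < r * rv v (w.2 : k) ^ 2 := by positivity
    linarith
  · have h5 := hinj _ h
    have h3 : (0 : ℝ) < rv v (w.1 : k) ^ 2 / r := by positivity
    have h4 : 0 ≤ r * rv v (w.2 : k) ^ 2 := by positivity
    linarith

theorem nn_pos' {r : ℝ} (hr : 0 < r) {w : V2 k} (hw : w ≠ 0) : 0 < nn r w :=
  Finset.prod_pos fun v _ => nr_pos' hr hw v

theorem Nr_nat' (hcard : Fintype.card (Pl k) = dg k) (c : ℕ) :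
    Nr (((c : 𝓞 k) : k)) = (c : ℝ) ^ dg k := by
  unfold Nr
  have h : ∀ v : Pl k, |rv v (((c : 𝓞 k) : k))| = (c : ℝ) := by
    intro v
    have h1 : (((c : 𝓞 k)) : k) = (c : k) := by simp
    rw [h1, map_natCast]
    exact abs_of_nonneg (Nat.cast_nonneg c)
  rw [Finset.prod_congr rfl fun v _ => h v, Finset.prod_const, Finset.card_univ, hcard]

end Alg

variable (k : Type) [Field k] [NumberField k] [IsTotallyReal k]

theorem pf_SHP (hEMB : T_EMB k) (hFLS : T_FLS k) (hCRT : T_CRT k) (hMIN : T_MIN k) :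
    T_SHP k := by
  obtain ⟨hcard, -, -, -, -, hNrm, -, -, -, -, hnm, -⟩ := hEMB
  intro R
  obtain ⟨C, hC1, hC⟩ := hMIN
  have hC0 : (1 : ℝ) ≤ (R.C0 : ℝ) := by exact_mod_cast R.pos
  have hC0n : (1 : ℝ) ≤ ((R.C0 : ℝ) ^ dg k) ^ 2 := one_le_pow₀ (one_le_pow₀ hC0)
  refine ⟨C * ((R.C0 : ℝ) ^ dg k) ^ 2, by nlinarith, ?_⟩
  intro b r I L hb hr hI0 hIsq hIb hL
  have hix : ix L = Ideal.absNorm I := ((hFLS I L hI0).2 hL).2
  have hI0' : Ideal.absNorm I ≠ 0 := fun h => hI0 (Ideal.absNorm_eq_zero_iff.1 h)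
  obtain ⟨v0, hv0, hne, hnr, hmin, hle⟩ := hC r L hr (by rw [hix]; exact hI0')
  obtain ⟨w, ⟨hw, hdet⟩, -⟩ := R.uniq v0 hne
  obtain ⟨c, hc0, hcC, hcs, hbc, hbw⟩ := adm_facts hb hw
  obtain ⟨α, β, hαβ⟩ := Ideal.mem_span_pair.1 hcs
  -- `y • w = c • v0`
  have hdet' : v0.1 * w.2 = v0.2 * w.1 := by
    have h : v0.1 * w.2 - v0.2 * w.1 = 0 := hdet
    exact sub_eq_zero.1 h
  obtain ⟨y, hy⟩ : ∃ y : 𝓞 k, y = α * v0.1 + β * v0.2 := ⟨_, rfl⟩
  have hy1 : y * w.1 = (c : 𝓞 k) * v0.1 := by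
    rw [hy, ← hαβ]
    linear_combination (-β) * hdet'
  have hy2 : y * w.2 = (c : 𝓞 k) * v0.2 := by
    rw [hy, ← hαβ]
    linear_combination α * hdet'
  have hyw : y • w = (c : 𝓞 k) • v0 := Prod.ext hy1 hy2
  have hck : (c : 𝓞 k) ≠ 0 := by exact_mod_cast hc0.ne'
  have hy0 : y ≠ 0 := by
    intro h
    rw [h, zero_smul] at hyw
    rcases smul_eq_zero.1 hyw.symm with h1 | h1
    · exact hck h1
    · exact hne h1
  -- the ideal `f`
  obtain ⟨f, hf⟩ : ∃ f : Ideal (𝓞 k), f = I ⊔ Ideal.span {v0.1, v0.2} := ⟨_, rfl⟩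
  have hIf : I ≤ f := by rw [hf]; exact le_sup_left
  have hvf : Ideal.span {v0.1, v0.2} ≤ f := by rw [hf]; exact le_sup_right
  obtain ⟨m, hm⟩ := Ideal.dvd_iff_le.2 hIf
  have hIm : I ≤ m := Ideal.dvd_iff_le.1 (Dvd.intro_left f hm.symm)
  have hf0 : f ≠ ⊥ := fun h => hI0 (by rw [hm, h]; exact Ideal.bot_mul m)
  have hm0 : m ≠ ⊥ := fun h => hI0 (by rw [hm, h]; exact Ideal.mul_bot f)
  have hfm : f ⊔ m = ⊤ := top_of_sq hIsq hm le_sup_left le_sup_right
  have hvm : Ideal.span {v0.1, v0.2} ⊔ m = ⊤ := by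
    refine top_of_sq hIsq hm ?_ le_sup_right
    rw [hf]
    exact sup_le (hIm.trans le_sup_right) le_sup_left
  have hwI : Cop I w := cop_of_adm hb hw hIb
  have hwf : Cop f w := cop_mono hwI hIf
  have hwm : Cop m w := cop_mono hwI hIm
  -- `y ∈ f`
  have hyf : y ∈ f := by
    apply mem_of_cop hwf
    · rw [hy1]
      exact f.mul_mem_left _ (hvf (Ideal.subset_span (by simp)))
    · rw [hy2]
      exact f.mul_mem_left _ (hvf (Ideal.subset_span (by simp)))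
  -- `y` is prime to `m`
  have hym : Ideal.span {y} ⊔ m = ⊤ := by
    have h1 : Ideal.span {(c : 𝓞 k)} ⊔ m = ⊤ := by
      have h := sup_top_mono hIb hIm hbc
      rw [sup_comm] at h
      exact h
    have h2 : IsCoprime (Ideal.span {(c : 𝓞 k)} * Ideal.span {v0.1, v0.2}) m :=
      (Ideal.isCoprime_iff_sup_eq.2 h1).mul_left (Ideal.isCoprime_iff_sup_eq.2 hvm)
    refine sup_top_mono (Ideal.isCoprime_iff_sup_eq.1 h2) ?_ le_rfl
    rw [Ideal.mul_le]
    intro s hs t ht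
    obtain ⟨s', rfl⟩ := Ideal.mem_span_singleton'.1 hs
    obtain ⟨t1, t2, rfl⟩ := Ideal.mem_span_pair.1 ht
    rw [Ideal.mem_span_singleton']
    refine ⟨s' * (t1 * w.1 + t2 * w.2), ?_⟩
    calc s' * (t1 * w.1 + t2 * w.2) * y = s' * (t1 * (y * w.1) + t2 * (y * w.2)) := by ring
      _ = s' * (t1 * ((c : 𝓞 k) * v0.1) + t2 * ((c : 𝓞 k) * v0.2)) := by rw [hy1, hy2]
      _ = _ := by ring
  obtain ⟨L', hL', L'', hL'', hLL⟩ := (hCRT f m hf0 hm0 hfm).2.1 L (hm ▸ hL)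
  obtain ⟨u, hu, hLu⟩ := (hFLS m L'' hm0).1.1 hL''
  have hv0u : det u v0 ∈ m := by
    have h : v0 ∈ L' ⊓ L'' := by rw [← hLL]; exact hv0
    have h2 : v0 ∈ L'' := h.2
    rw [hLu] at h2
    exact h2
  have hduw : det u w ∈ m := by
    have h1 : y * det u w ∈ m := by
      rw [← det_smul', hyw, det_smul']
      exact m.mul_mem_left _ hv0u
    have h2 : (1 : 𝓞 k) ∈ Ideal.span {y} ⊔ m := by rw [hym]; exact Submodule.mem_top
    obtain ⟨s, hs, t, ht, hst⟩ := Submodule.mem_sup.1 h2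
    obtain ⟨s', rfl⟩ := Ideal.mem_span_singleton'.1 hs
    have h3 : det u w = s' * (y * det u w) + det u w * t := by
      calc det u w = det u w * 1 := (mul_one _).symm
        _ = det u w * (s' * y + t) := by rw [hst]
        _ = _ := by ring
    rw [h3]
    exact m.add_mem (m.mul_mem_left _ h1) (m.mul_mem_left _ ht)
  have hw0 : w ≠ 0 := R.ne w hw
  have hnw : 0 < nn r w := nn_pos' hr hw0
  -- the bound
  have hnmf : nm f ≤ Nr (y : k) := (hnm f hf0).2 y hyf hy0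
  have hnmf1 : 1 ≤ nm f := (hnm f hf0).1
  have hmn0 : 0 ≤ mn r L := by rw [← hnr]; exact (nn_pos' hr hne).le
  have key : nm f ^ 2 * nn r w ≤ ((R.C0 : ℝ) ^ dg k) ^ 2 * mn r L := by
    have h1 : Nr (y : k) ^ 2 * nn r w = ((c : ℝ) ^ dg k) ^ 2 * mn r L := by
      rw [← nn_smul', hyw, nn_smul', hnr, Nr_nat' hcard]
    have h2 : nm f ^ 2 * nn r w ≤ Nr (y : k) ^ 2 * nn r w :=
      mul_le_mul_of_nonneg_right (pow_le_pow_left₀ (by linarith) hnmf 2) hnw.le
    have h3 : ((c : ℝ) ^ dg k) ^ 2 ≤ ((R.C0 : ℝ) ^ dg k) ^ 2 := by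
      have h4 : (c : ℝ) ≤ (R.C0 : ℝ) := by exact_mod_cast hcC
      exact pow_le_pow_left₀ (by positivity) (pow_le_pow_left₀ (by positivity) h4 _) 2
    have h4 := mul_le_mul_of_nonneg_right h3 hmn0
    linarith
  have hnmI : (ix L : ℝ) = nm f * nm m := by
    rw [hix, hm, map_mul, Nat.cast_mul]
    rfl
  refine ⟨f, m, L', w, hm, hL', ?_, hw, ?_, ?_⟩
  · rw [hLL, hLu, Lw_eq' hu hwm hduw]
  · refine key.trans ?_
    have h1 : ((R.C0 : ℝ) ^ dg k) ^ 2 * mn r L ≤ C * (((R.C0 : ℝ) ^ dg k) ^ 2 * mn r L) :=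
      le_mul_of_one_le_left (by positivity) hC1
    linarith
  · have h1 : nm f ^ 2 * nn r w ≤ ((R.C0 : ℝ) ^ dg k) ^ 2 * (C * (nm f * nm m)) := by
      refine key.trans (mul_le_mul_of_nonneg_left ?_ (by positivity))
      rw [← hnmI]
      exact hle
    have hfp : 0 < nm f := by linarith
    have h2 : nm f * (nm f * nn r w) ≤ nm f * (C * ((R.C0 : ℝ) ^ dg k) ^ 2 * nm m) := by
      nlinarith
    exact le_of_mul_le_mul_left h2 hfp

end Pool.Agent.H29.CM4
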